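import Pool.Agent.Helper86.TH.Stmts

/-! # Row DS of the project TH (MP_1b3f64_co) -/

namespace TH32

open MvPolynomial Finset TH

variable {K : Type*} [Field K] [CharZero K]

/-- `ctL` as a linear map -/
noncomputable def ctLin (q t : K) (m : ℕ) (L : Fin m → ℤ) : MvPolynomial (Fin m) K →ₗ[K] K :=
  (MvPolynomial.basisMonomials (Fin m) K).constr K
    (fun α => ct q t m (fun i => L i - (α i : ℤ)))

lemma ctL_eq (q t : K) (m : ℕ) (L : Fin m → ℤ) (P : MvPolynomial (Fin m) K) :
    ctL q t m L P = ctLin q t m L P := by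
  rw [ctLin, Module.Basis.constr_apply]
  unfold ctL
  rfl

lemma ctLin_monomial (q t : K) (m : ℕ) (L : Fin m → ℤ) (s : Fin m →₀ ℕ) :
    ctLin q t m L (monomial s 1) = ct q t m (fun i => L i - (s i : ℤ)) := by
  have h := (MvPolynomial.basisMonomials (Fin m) K).constr_basis K
    (fun α => ct q t m (fun i => L i - (α i : ℤ))) s
  rw [MvPolynomial.coe_basisMonomials] at h
  exact h

lemma prod_X_pow (m : ℕ) (s : Fin m → ℕ) :
    (∏ i, (X i : MvPolynomial (Fin m) K) ^ (s i))
      = monomial (Finsupp.equivFunOnFinite.symm s) 1 := by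
  rw [MvPolynomial.monomial_eq, C_1, one_mul, Finsupp.prod_fintype]
  · rfl
  · intro i; simp

lemma prod_mem_eq (m : ℕ) (S : Finset (Fin m)) :
    (∏ i ∈ S, (X i : MvPolynomial (Fin m) K)) = ∏ i, X i ^ (if i ∈ S then 1 else 0) := by
  rw [← Finset.prod_filter_mul_prod_filter_not univ (fun i => i ∈ S)]
  rw [Finset.prod_congr rfl (g := fun i => (X i : MvPolynomial (Fin m) K))
    (s₁ := filter (fun i => i ∈ S) univ) (s₂ := filter (fun i => i ∈ S) univ)]
  · rw [Finset.prod_congr rfl (g := fun i => (1 : MvPolynomial (Fin m) K))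
      (s₁ := filter (fun i => i ∉ S) univ) (s₂ := filter (fun i => i ∉ S) univ)]
    · simp
    · intro i hi
      rw [mem_filter] at hi
      simp [hi.2]
  · intro i hi
    rw [mem_filter] at hi
    simp [hi.2]

theorem st_DS (K : Type*) [Field K] [CharZero K] (hEZ : ST_EZ K) (hEH : ST_EH K) (hES : ST_ES K)
    (hTC : ST_TC K) : ST_DS K := by
  intro q t m b k d hm hd
  rw [hEZ, map_mul, map_mul, (hEH m d).1, (hEH m (∑ i, b i + k - d)).2, hES m k hm, ctL_eq]
  set n := ∑ i, b i with hn
  have key : ((-1) ^ d * ∑ S ∈ powersetCard d (univ : Finset (Fin m)), ∏ i ∈ S, X i) *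
      ((-1) ^ (n + k - d) * ∑ α ∈ Finset.piAntidiag (univ : Finset (Fin m)) (n + k - d),
        ∏ i, X i ^ (α i)) *
      ((-1) ^ (k * (m - 1)) *
        ∑ γ ∈ Finset.piAntidiag (univ : Finset (Fin m)) k, ∏ i, X i ^ (k - γ i))
      = ((-1 : K) ^ (d + (n + k - d) + k * (m - 1))) •
        ∑ S ∈ powersetCard d (univ : Finset (Fin m)),
          ∑ γ ∈ Finset.piAntidiag (univ : Finset (Fin m)) k,
            ∑ α ∈ Finset.piAntidiag (univ : Finset (Fin m)) (n + k - d),
            (monomial (Finsupp.equivFunOnFinite.symm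
              (fun i => (if i ∈ S then 1 else 0) + α i + (k - γ i))) (1 : K)) := by
    have e1 : (∑ S ∈ powersetCard d (univ : Finset (Fin m)),
          ∑ γ ∈ Finset.piAntidiag (univ : Finset (Fin m)) k,
            ∑ α ∈ Finset.piAntidiag (univ : Finset (Fin m)) (n + k - d),
            (monomial (Finsupp.equivFunOnFinite.symm
              (fun i => (if i ∈ S then 1 else 0) + α i + (k - γ i))) (1 : K)))
        = (∑ S ∈ powersetCard d (univ : Finset (Fin m)), ∏ i ∈ S, X i) *
          ((∑ γ ∈ Finset.piAntidiag (univ : Finset (Fin m)) k, ∏ i, X i ^ (k - γ i)) *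
          (∑ α ∈ Finset.piAntidiag (univ : Finset (Fin m)) (n + k - d),
            ∏ i, X i ^ (α i))) := by
      rw [Finset.sum_mul_sum, Finset.sum_mul]
      refine Finset.sum_congr rfl fun S _ => ?_
      rw [Finset.mul_sum]
      refine Finset.sum_congr rfl fun γ _ => ?_
      rw [Finset.mul_sum]
      refine Finset.sum_congr rfl fun α _ => ?_
      rw [← prod_X_pow, prod_mem_eq, ← Finset.prod_mul_distrib, ← Finset.prod_mul_distrib]
      refine Finset.prod_congr rfl fun i _ => ?_
      rw [← pow_add, ← pow_add]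
      congr 1
      ring
    rw [e1, MvPolynomial.smul_eq_C_mul, map_pow, map_neg, C_1, pow_add, pow_add]
    ring
  rw [key, map_smul, smul_eq_mul, ← mul_assoc, ← pow_add]
  have hsign : (-1 : K) ^ (n + k * m + (d + (n + k - d) + k * (m - 1))) = 1 := by
    have : n + k * m + (d + (n + k - d) + k * (m - 1)) = 2 * (n + k * m) := by
      obtain ⟨m', rfl⟩ : ∃ m', m = m' + 1 := ⟨m - 1, by omega⟩
      have h1 : d + (n + k - d) = n + k := by omega
      rw [h1]
      simp only [Nat.add_sub_cancel]
      ring
    rw [this, pow_mul]; simp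
  rw [hsign, one_mul]
  by_cases hdm : d ≤ m
  · rw [if_pos hdm]
    simp only [map_sum, ctLin_monomial]
    -- reindex by complement
    refine Finset.sum_bij (fun S _ => Sᶜ) ?_ ?_ ?_ ?_
    · intro S hS
      rw [mem_powersetCard] at hS ⊢
      refine ⟨subset_univ _, ?_⟩
      rw [Finset.card_compl, hS.2, Fintype.card_fin]
    · intro S _ S' _ h
      exact compl_injective h
    · intro R hR
      rw [mem_powersetCard] at hR
      refine ⟨Rᶜ, ?_, compl_compl R⟩
      rw [mem_powersetCard]
      refine ⟨subset_univ _, ?_⟩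
      rw [Finset.card_compl, hR.2, Fintype.card_fin]
      omega
    · intro S hS
      rw [mem_powersetCard] at hS
      refine Finset.sum_congr rfl fun γ hγ => ?_
      rw [Finset.mem_piAntidiag] at hγ
      have hsum : ∑ i : Fin m, ((b i : ℤ) - 1 + (if i ∈ Sᶜ then 1 else 0) + (γ i : ℤ))
          = ((n + k - d : ℕ) : ℤ) := by
        rw [Finset.sum_add_distrib, Finset.sum_add_distrib, Finset.sum_sub_distrib]
        have h1 : ∑ i : Fin m, (γ i : ℤ) = k := by exact_mod_cast hγ.1
        have h2 : ∑ i : Fin m, (b i : ℤ) = n := by rw [hn]; push_cast; rfl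
        have h3 : ∑ i : Fin m, (if i ∈ Sᶜ then (1 : ℤ) else 0) = (m : ℤ) - d := by
          rw [Finset.sum_ite_mem, Finset.univ_inter, Finset.sum_const, Finset.card_compl, hS.2,
            Fintype.card_fin]
          simp only [nsmul_eq_mul, mul_one]
          rw [Nat.cast_sub hdm]
        rw [h1, h2, h3]
        simp
        rw [Nat.cast_sub hd]
        push_cast
        ring
      rw [hTC, hsum, if_pos (Int.natCast_nonneg _), Int.toNat_natCast]
      refine Finset.sum_congr rfl fun α _ => ?_
      congr 1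
      funext i
      have hγi : γ i ≤ k := by
        rw [← hγ.1]
        exact Finset.single_le_sum (fun _ _ => Nat.zero_le _) (mem_univ i)
      simp only [Finsupp.coe_equivFunOnFinite_symm, Finset.mem_compl]
      by_cases hi : i ∈ S
      · simp only [hi, if_true, not_true_eq_false, if_false]
        push_cast [hγi]
        ring
      · simp only [hi, if_false, not_false_eq_true, if_true]
        push_cast [hγi]
        ring
  · rw [if_neg hdm, Finset.powersetCard_eq_empty.2 (by simpa using hdm)]
    simp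

end TH32
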