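import Pool.Agent.Helper86.TH.Stmts

/-! # Row F2 of the project TH (MP_1b3f64_co) -/

namespace TH32

open MvPolynomial Finset TH

variable {K : Type*} [Field K] [CharZero K]

lemma ep_X0 (u : K) : ep u (X 0 : Sy K) = 1 - u := by
  simp [ep, ev]

/-- the basis vector of the empty partition is `1` -/
lemma b_P0 {q t : K} {H : Par → Sy K} (h : IsE q t H) : H P0 = 1 := by
  have h1 := h.hom P0
  rw [card_P0] at h1
  have h2 : H P0 = C (coeff 0 (H P0)) := by
    ext s
    rw [coeff_C]
    by_cases hs : 0 = s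
    · subst hs; simp
    · rw [if_neg hs]
      by_contra hne
      have h3 := h1 hne
      apply hs
      have h4 : s = 0 := by
        ext i
        have h5 : s i * (i + 1) ≤ Finsupp.weight (fun j : ℕ => j + 1) s := by
          have := Finsupp.le_weight (fun j : ℕ => j + 1) (s := i) (by omega) s
          have h6 : s i = 0 := by omega
          rw [h6]; omega
        rw [h3] at h5
        have h6 := Nat.mul_eq_zero.1 (Nat.le_zero.1 h5)
        simpa using h6
      exact h4.symm
  have h3 := h.eps P0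
  rw [h2] at h3
  have h4 : coeff 0 (H P0) = 1 := by
    simpa [ep, ev] using h3
  rw [h2, h4, C_1]

lemma Bn_one {q t : K} (hM : Mj q t 0 ≠ 0) (hDX : ST_DX K) : Bn q t 1 = -Dk q t 1 := by
  have h := hDX q t 0
  have h1 : Bn q t 1 = Del q t * mu (X 0) - mu (X 0) * Del q t := rfl
  rw [zero_add] at h
  have h3 : Del q t = (Mj q t 0)⁻¹ • (1 - Dk q t 0) := rfl
  rw [h1, h3]
  generalize Dk q t 0 = D0 at *
  generalize Dk q t 1 = D1 at *
  generalize (mu (X 0) : Module.End K (Sy K)) = E at *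
  generalize Mj q t 0 = M at *
  have h4 : M⁻¹ • (1 - D0) * E - E * M⁻¹ • (1 - D0) = M⁻¹ • (E * D0 - D0 * E) := by
    rw [smul_mul_assoc, mul_smul_comm, sub_mul, mul_sub, one_mul, mul_one, smul_sub, smul_sub,
      smul_sub]
    abel
  rw [h4, h, sub_add_cancel_left, smul_neg, smul_smul, inv_mul_cancel₀ hM, one_smul]

lemma Nu_up {q t : K} (u : K) {μ : Par} {i : ℕ} (h : Adb μ i) :
    Nu q t u (up μ i) = Nu q t u μ * (1 - u * zc q t μ i) := by
  rw [Nu, cprod_up h, Nu, zc, mul_comm (q ^ μ.1 i)]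

lemma dgNu_Bn {q t : K} (hG : Gn q t) (hBM : ST_BM K) (b : Module.Basis Par K (Sy K))
    (hb : MB q t b) (u : K) (s : ℕ) :
    dg b (Nu q t u) * Bn q t s = (Bn q t s - u • Bn q t (s + 1)) * dg b (Nu q t u) := by
  refine b.ext fun μ => ?_
  obtain ⟨d, hd, -, -⟩ := hb.pieri μ
  have h1 := hBM q t hG b hb.toIsE μ d hd
  rw [Module.End.mul_apply, Module.End.mul_apply, dg_apply_basis, map_smul, LinearMap.sub_apply,
    LinearMap.smul_apply, h1 s, h1 (s + 1), map_sum, Finset.smul_sum, ← Finset.sum_sub_distrib,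
    Finset.smul_sum]
  refine Finset.sum_congr rfl fun i hi => ?_
  rw [map_smul, dg_apply_basis, Nu_up u (mem_ads.1 hi), smul_smul, smul_smul, ← sub_smul,
    smul_smul]
  congr 1
  ring

theorem st_F2 (K : Type*) [Field K] [CharZero K] (hU : ST_U K) (hBM : ST_BM K) (hEB : ST_EB K)
    (hDX : ST_DX K) : ST_F2 K := by
  intro q t hG b hb u F
  have hM : Mj q t 0 ≠ 0 := hG.Mj_ne 0
  set f : Sy K →ₗ[K] K := (ep (0 : K)).toLinearMap ∘ₗ (dg b (Nu q t u)) with hf
  have hfa : ∀ F, f F = ep 0 (dg b (Nu q t u) F) := fun F => rfl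
  have h0 : ∀ F, f (X 0 * F) = (1 - u) * f F := by
    intro F
    have h1 := LinearMap.congr_fun (dgNu_Bn hG hBM b hb u 0) F
    rw [Module.End.mul_apply, Module.End.mul_apply, LinearMap.sub_apply, LinearMap.smul_apply] at h1
    have h2 : Bn q t 0 F = X 0 * F := rfl
    rw [h2] at h1
    rw [hfa, hfa, h1, map_sub, map_smul, smul_eq_mul, (hEB q t hM _).1]
    have h3 : ∀ G : Sy K, ep (0 : K) (Bn q t 0 G) = ep 0 G := by
      intro G
      have : Bn q t 0 G = X 0 * G := rfl
      rw [this, map_mul, ep_X0, sub_zero, one_mul]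
    rw [h3]
    ring
  have h1 : ∀ F, f (Dk q t 1 F) = u * f (Dk q t 0 F) - f F := by
    intro F
    have hD1 : Dk q t 1 = -Bn q t 1 := by rw [Bn_one hM hDX, neg_neg]
    have h1 := LinearMap.congr_fun (dgNu_Bn hG hBM b hb u 1) F
    rw [Module.End.mul_apply, Module.End.mul_apply, LinearMap.sub_apply, LinearMap.smul_apply] at h1
    rw [hfa, hD1, LinearMap.neg_apply, map_neg, h1, map_neg, map_sub, map_smul, smul_eq_mul,
      (hEB q t hM _).1, (hEB q t hM _).2, hfa, hfa]
    have h2 : Dk q t 0 (dg b (Nu q t u) F) = dg b (Nu q t u) (Dk q t 0 F) := by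
      have h5 := LinearMap.congr_fun (dg_comm b (fun μ => 1 - Mj q t 0 * Ps q t μ 0)
        (Nu q t u)) F
      rw [Module.End.mul_apply, Module.End.mul_apply, ← Dk_zero_eq_dg hb.toIsE] at h5
      exact h5
    rw [h2]
    ring
  have h2 := hU q t hM u f h0 h1 F
  have h3 : f 1 = 1 := by
    rw [hfa, ← b_P0 hb.toIsE, dg_apply_basis, map_smul, hb.eps P0]
    simp [Nu, cprod, P0]
  rw [h3, one_mul] at h2
  exact h2.symm

end TH32
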